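import Pool.Agent.PCS.Stmts

/-!
Squad PCS, row RKS: elementary properties of `del` and `sig`.
-/

namespace Pool.Agent.PCS.H94

open Pool.Agent.PCS

theorem image_orbit {Γ V : Type} [Group Γ] [MulAction Γ V] (T : Tree Γ V) (x : V) :
    T.par '' MulAction.orbit Γ x = MulAction.orbit Γ (T.par x) := by
  ext y
  constructor
  · rintro ⟨w, ⟨g, rfl⟩, rfl⟩
    exact ⟨g, (T.par_smul g x).symm⟩
  · rintro ⟨g, rfl⟩
    exact ⟨g • x, ⟨g, rfl⟩, T.par_smul g x⟩

theorem lv_orbit {Γ V : Type} [Group Γ] [MulAction Γ V] (T : Tree Γ V) {x w : V}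
    (hw : w ∈ MulAction.orbit Γ x) : T.lv w = T.lv x := by
  obtain ⟨g, rfl⟩ := hw
  exact T.lv_smul g x

theorem rks (hL : LevStmt) : RksStmt := by
  intro Γ V _ _ T S rk R hR hS
  obtain ⟨_, hlev⟩ := hL Γ V T
  have hfin : ∀ v : V, (MulAction.orbit Γ v).Finite := fun v => (hlev v).1
  have hbdd : ∀ v : V, BddAbove {n | ∃ s ∈ S, ∃ w ∈ MulAction.orbit Γ v, n = rk s w} := by
    intro v
    refine ⟨R, ?_⟩
    rintro n ⟨s, hs, w, -, rfl⟩
    exact hR.le s hs w
  have hne : ∀ v : V, {n | ∃ s ∈ S, ∃ w ∈ MulAction.orbit Γ v, n = rk s w}.Nonempty := by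
    intro v
    obtain ⟨s, hs⟩ := hS
    exact ⟨rk s v, s, hs, v, MulAction.mem_orbit_self v, rfl⟩
  have h1 : ∀ v, ∀ s ∈ S, ∀ w ∈ MulAction.orbit Γ v, rk s w ≤ del S rk v :=
    fun v s hs w hw => le_csSup (hbdd v) ⟨s, hs, w, hw, rfl⟩
  have h2 : ∀ v, del S rk v ≤ R ∧ ∃ s ∈ S, ∃ w ∈ MulAction.orbit Γ v, rk s w = del S rk v := by
    intro v
    obtain ⟨s, hs, w, hw, he⟩ := Nat.sSup_mem (hne v) (hbdd v)
    have he' : rk s w = del S rk v := he.symm
    exact ⟨he' ▸ hR.le s hs w, s, hs, w, hw, he'⟩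
  refine ⟨h1, h2, ?_, ?_, ?_⟩
  · intro v
    have hs : ∀ s ∈ S, (∑ᶠ w ∈ MulAction.orbit Γ v, rk s w) ≤ N Γ v * R := by
      intro s hs
      rw [finsum_mem_eq_finite_toFinset_sum _ (hfin v)]
      calc ∑ w ∈ (hfin v).toFinset, rk s w ≤ ∑ _w ∈ (hfin v).toFinset, R :=
            Finset.sum_le_sum fun w _ => hR.le s hs w
        _ = N Γ v * R := by
            rw [Finset.sum_const, smul_eq_mul]
            congr 1
            exact (Set.ncard_eq_toFinset_card _ (hfin v)).symm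
    calc sig S rk v ≤ ∑ _s ∈ S, N Γ v * R := Finset.sum_le_sum hs
      _ = S.card * N Γ v * R := by
          rw [Finset.sum_const, smul_eq_mul, mul_assoc]
  · intro x hx
    obtain ⟨-, s, hs, w, hw, he⟩ := h2 x
    have hlw : 0 < T.lv w := by rw [lv_orbit T hw]; exact hx
    calc del S rk x = rk s w := he.symm
      _ ≤ rk s (T.par w) := hR.mono s hs w hlw
      _ ≤ del S rk (T.par x) := by
          apply h1 (T.par x) s hs
          rw [← image_orbit T x]
          exact ⟨w, hw, rfl⟩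
  · intro x hx hN
    have hinj : Set.InjOn T.par (MulAction.orbit Γ x) := by
      apply Set.injOn_of_ncard_image_eq _ (hfin x)
      rw [image_orbit T x]
      exact hN.symm
    have hsum : ∀ s, (∑ᶠ w ∈ MulAction.orbit Γ (T.par x), rk s w) =
        ∑ w ∈ (hfin x).toFinset, rk s (T.par w) := by
      intro s
      rw [← image_orbit T x, finsum_mem_image hinj, finsum_mem_eq_finite_toFinset_sum _ (hfin x)]
    have hsum' : ∀ s, (∑ᶠ w ∈ MulAction.orbit Γ x, rk s w) =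
        ∑ w ∈ (hfin x).toFinset, rk s w :=
      fun s => finsum_mem_eq_finite_toFinset_sum _ (hfin x)
    have hterm : ∀ s ∈ S, ∀ w ∈ (hfin x).toFinset, rk s w ≤ rk s (T.par w) := by
      intro s hs w hw
      have hw' : w ∈ MulAction.orbit Γ x := (hfin x).mem_toFinset.1 hw
      apply hR.mono s hs w
      rw [lv_orbit T hw']
      exact hx
    have hs : ∀ s ∈ S, (∑ᶠ w ∈ MulAction.orbit Γ x, rk s w) ≤
        ∑ᶠ w ∈ MulAction.orbit Γ (T.par x), rk s w := by
      intro s hs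
      rw [hsum, hsum']
      exact Finset.sum_le_sum (hterm s hs)
    refine ⟨hinj, Finset.sum_le_sum hs, ?_⟩
    intro heq s hsS w hw
    have h3 := (Finset.sum_eq_sum_iff_of_le hs).1 heq s hsS
    rw [hsum, hsum'] at h3
    exact (Finset.sum_eq_sum_iff_of_le (hterm s hsS)).1 h3 w ((hfin x).mem_toFinset.2 hw)

end Pool.Agent.PCS.H94
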